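import Pool.Agent.Y453.HB.Fin

/-!
# MP_68f289_gt: no dilation homogeneous quasimorphisms on Hamiltonian homeomorphisms of the ball

`HamGroup n` is the group of the frozen statement S13311: the homeomorphisms of `ℝ^{2n}` which are
supported in a compact subset of the open unit ball and are uniform limits of time one maps of smooth
Hamiltonian flows supported in the same compact set (here every `n ≥ 1` is allowed). For `0 < s < 1`
the conjugate of `φ` by the dilation `x ↦ s x` is denoted `φ^{(s)}`.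

Theorem. Every homogeneous quasimorphism `c` on the group (for example, every homomorphism to `ℝ`)
which is homogeneous of some real degree `κ` under dilations, `c (φ^{(s)}) = s^κ c(φ)`, is zero. On
the group of smooth Hamiltonian diffeomorphisms the Calabi homomorphism is homogeneous of degree
`2n + 2`: it has no homogeneous extension to the Hamiltonian homeomorphisms.

More generally let `c` be a class function with values in an abelian group `A`, additive on commuting
pairs, such that `c (φ^{(s)}) = D (c φ)` for one `0 < s < 1` and one endomorphism `D` of `A`. Then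
the values of `c` on the elements `φ^{(r)}`, `r < (1 - s) / 2`, are in `f(D) A` for every integral
polynomial `f` with `f(0) = 1`.

The parts of the proof in `Pool/Agent/Y907`, `Y510`, `Y419`, `Y309`, `Y496` and `Y945` (folders `HB`)
are due to the agents with these numbers.
-/

set_option autoImplicit false

namespace Pool.Agent.Results.MP_68f289_gt.HomogeneousQuasimorphisms

/-- `ℝ^{2n}`, with coordinates `(x, y)` -/
abbrev E (n : ℕ) : Type := (Fin n → ℝ) × (Fin n → ℝ)

/-- the open unit ball -/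
def ball (n : ℕ) : Set (E n) := {p | ∑ i, ((p.1 i) ^ 2 + (p.2 i) ^ 2) < 1}

/-- the directional derivative of `h` at `p` in the direction `v` -/
noncomputable def dirDeriv {n : ℕ} (h : E n → ℝ) (p v : E n) : ℝ := fderiv ℝ h p v

/-- the unit vector of the coordinate `x i` -/
def ex {n : ℕ} (i : Fin n) : E n := (Pi.single i 1, 0)

/-- the unit vector of the coordinate `y i` -/
def ey {n : ℕ} (i : Fin n) : E n := (0, Pi.single i 1)

/-- the Hamiltonian vector field `(∂h/∂y, -∂h/∂x)` of `h` -/
noncomputable def field {n : ℕ} (h : E n → ℝ) (p : E n) : E n :=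
  (fun i => dirDeriv h p (ey i), fun i => -dirDeriv h p (ex i))

/-- the time dependent Hamiltonian `H` is smooth -/
def IsSmooth {n : ℕ} (H : ℝ → E n → ℝ) : Prop :=
  ContDiff ℝ ((⊤ : ℕ∞) : WithTop ℕ∞) (Function.uncurry H)

/-- `ψ` is the flow of the Hamiltonian `H` -/
def IsFlow {n : ℕ} (H : ℝ → E n → ℝ) (ψ : ℝ → E n → E n) : Prop :=
  (∀ x, ψ 0 x = x) ∧ ∀ t x, HasDerivAt (fun s => ψ s x) (field (H t) (ψ t x)) t

/-- `u` is the time one map of the flow of a smooth Hamiltonian supported in a compact subset of the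
open unit ball -/
def IsTimeOneMap {n : ℕ} (u : E n → E n) : Prop :=
  ∃ H : ℝ → E n → ℝ, IsSmooth H ∧
    (∃ K : Set (E n), IsCompact K ∧ K ⊆ ball n ∧ ∀ t x, x ∉ K → H t x = 0) ∧
    ∃ ψ : ℝ → E n → E n, IsFlow H ψ ∧ ∀ x, u x = ψ 1 x

/-- homeomorphisms of `ℝ^{2n}` -/
abbrev Homeo (n : ℕ) : Type := E n ≃ₜ E n

/-- `φ` is the identity off `K` -/
def FixesOff {n : ℕ} (K : Set (E n)) (φ : Homeo n) : Prop := ∀ x, x ∉ K → φ x = x

/-- the sequence `u` converges uniformly to `φ` -/
def ConvergesTo {n : ℕ} (u : ℕ → Homeo n) (φ : Homeo n) : Prop :=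
  TendstoUniformly (fun k x => u k x) (fun x => φ x) Filter.atTop

/-- the homeomorphisms supported in a compact subset `K` of the open unit ball that are uniform
limits of Hamiltonian diffeomorphisms supported in `K` -/
def hamBar (n : ℕ) : Set (Homeo n) :=
  {φ | ∃ K : Set (E n), IsCompact K ∧ K ⊆ ball n ∧ FixesOff K φ ∧
    ∃ u : ℕ → Homeo n, (∀ k, FixesOff K (u k)) ∧ (∀ k, IsTimeOneMap (u k)) ∧ ConvergesTo u φ}

/-- the group of compactly supported Hamiltonian homeomorphisms of the open unit ball -/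
def HamGroup (n : ℕ) : Type := ↥(Subgroup.closure (hamBar n))

noncomputable instance (n : ℕ) : Group (HamGroup n) :=
  inferInstanceAs (Group ↥(Subgroup.closure (hamBar n)))

/-- the homeomorphism `φ` as a map -/
def HamGroup.map {n : ℕ} (φ : HamGroup n) : E n → E n := (φ.1 : Homeo n)

/-- `φ'` is the conjugate `φ^{(s)}` of `φ` by the dilation `x ↦ s x` -/
def IsDilate {n : ℕ} (s : ℝ) (φ φ' : HamGroup n) : Prop := ∀ x, φ'.map (s • x) = s • φ.map x

/-- `c` is a homogeneous quasimorphism on the group `G` -/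
structure IsHomogeneousQuasimorphism {G : Type} [Group G] (c : G → ℝ) : Prop where
  bounded : ∃ D : ℝ, ∀ φ ψ : G, |c (φ * ψ) - c φ - c ψ| ≤ D
  pow : ∀ (φ : G) (m : ℕ), c (φ ^ m) = m * c φ

/-- `c` is a class function on the group `G`, additive on commuting pairs -/
structure IsCommutingAdditive {G A : Type} [Group G] [AddCommGroup A] (c : G → A) : Prop where
  conj : ∀ φ ψ : G, c (ψ * φ * ψ⁻¹) = c φ
  comm : ∀ φ ψ : G, φ * ψ = ψ * φ → c (φ * ψ) = c φ + c ψ

/-- the action `f(D)` of an integral polynomial `f` in the endomorphism `D` of an abelian group -/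
noncomputable def polyAct {A : Type} [AddCommGroup A] (D : AddMonoid.End A) (f : Polynomial ℤ)
    (a : A) : A := Polynomial.aeval D f a

/-! ### Proofs -/

theorem timeOne_iff {n : ℕ} (u : Homeo n) : IsTimeOneMap u ↔ Pool.Agent.Y453.HB.IsHam u := by
  constructor
  · rintro ⟨H, h1, h2, ψ, ⟨h3, h4⟩, h5⟩
    exact ⟨H, h1, h2, ψ, h3, h4, h5⟩
  · rintro ⟨H, h1, h2, ψ, h3, h4, h5⟩
    exact ⟨H, h1, h2, ψ, ⟨h3, h4⟩, h5⟩

theorem hamBar_eq (n : ℕ) : hamBar n = Pool.Agent.Y453.HB.hamBar n := by
  ext φ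
  constructor
  · rintro ⟨K, h1, h2, h3, u, h4, h5, h6⟩
    exact ⟨K, h1, h2, h3, u, h4, fun k => (timeOne_iff _).1 (h5 k), h6⟩
  · rintro ⟨K, h1, h2, h3, u, h4, h5, h6⟩
    exact ⟨K, h1, h2, h3, u, h4, fun k => (timeOne_iff _).2 (h5 k), h6⟩

theorem closure_eq (n : ℕ) : Subgroup.closure (hamBar n) = Pool.Agent.Y453.HB.HamBar n := by
  rw [hamBar_eq]
  rfl

/-- the two groups -/
noncomputable def iso (n : ℕ) : HamGroup n ≃* Pool.Agent.Y453.HB.HamBar n :=
  MulEquiv.subgroupCongr (closure_eq n)

theorem iso_dilate {n : ℕ} {s : ℝ} {φ φ' : HamGroup n} :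
    Pool.Agent.Y453.HB.IsDilate s (iso n φ) (iso n φ') ↔ IsDilate s φ φ' := Iff.rfl

theorem qm_iff {n : ℕ} {c : HamGroup n → ℝ} (h : IsHomogeneousQuasimorphism c) :
    Pool.Agent.Y453.HB.IsHomogeneousQuasimorphism fun φ => c ((iso n).symm φ) := by
  obtain ⟨D, hD⟩ := h.bounded
  exact ⟨⟨D, fun φ ψ => by
    simp only [map_mul]
    exact hD _ _⟩, fun φ m => by
    simp only [map_pow]
    exact h.pow _ m⟩

/-- Let `n ≥ 1` and let `HamGroup n` be the group of compactly supported Hamiltonian homeomorphisms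
of the open unit ball of `ℝ^{2n}`.

(1) For `0 < s ≤ 1` and `φ` in the group the conjugate `φ^{(s)}` by the dilation is in the group.

(2) Let `c` be a class function on the group with values in an abelian group `A`, additive on
commuting pairs, `0 < s`, and `D` an endomorphism of `A` such that `c (φ^{(s)}) = D (c φ)` for all
`φ`. For every polynomial `f` with integer coefficients and constant term `1`, every
`0 < r < (1 - s) / 2` and every `φ` there is `Φ` with `c (φ^{(r)}) = f(D) (c Φ)`.

(3) Every homogeneous quasimorphism `c` on the group such that `c (φ^{(s)}) = s ^ κ c(φ)` for all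
`0 < s < 1` and all `φ`, where `κ` is a real number, is zero. -/
theorem result (n : ℕ) (hn : 0 < n) :
    (∀ s : ℝ, 0 < s → s ≤ 1 → ∀ φ : HamGroup n, ∃ φ', IsDilate s φ φ') ∧
    (∀ (A : Type) [AddCommGroup A] (D : AddMonoid.End A) (c : HamGroup n → A),
      IsCommutingAdditive c → ∀ s : ℝ, 0 < s → (∀ φ φ', IsDilate s φ φ' → c φ' = D (c φ)) →
      ∀ f : Polynomial ℤ, f.coeff 0 = 1 → ∀ r : ℝ, 0 < r → r < (1 - s) / 2 →
      ∀ φ φ', IsDilate r φ φ' → ∃ Φ, c φ' = polyAct D f (c Φ)) ∧
    (∀ (κ : ℝ) (c : HamGroup n → ℝ), IsHomogeneousQuasimorphism c →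
      (∀ s : ℝ, 0 < s → s < 1 → ∀ φ φ', IsDilate s φ φ' → c φ' = s ^ κ * c φ) →
      ∀ φ, c φ = 0) := by
  refine ⟨fun s hs hs1 φ => ?_, fun A _ D c hca s hs hc f hf r hr hrs φ φ' hφ => ?_,
    fun κ c hq hc φ => ?_⟩
  · obtain ⟨φ', h⟩ := Pool.Agent.Y453.HB.exists_dilate hs hs1 (iso n φ)
    refine ⟨(iso n).symm φ', iso_dilate.1 ?_⟩
    rw [MulEquiv.apply_symm_apply]
    exact h
  · obtain ⟨Φ, hΦ⟩ := Pool.Agent.Y453.HB.equivariant hn A D (fun φ => c ((iso n).symm φ))
      (fun φ ψ => by
        simp only [map_mul, map_inv]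
        exact hca.conj _ _)
      (fun φ ψ h => by
        simp only [map_mul]
        refine hca.comm _ _ ?_
        rw [← map_mul, ← map_mul, h]) s hs
      (fun φ φ' h => hc _ _ (iso_dilate.1 (by
        rw [MulEquiv.apply_symm_apply, MulEquiv.apply_symm_apply]
        exact h))) f hf r hr hrs (iso n φ) (iso n φ') (iso_dilate.2 hφ)
    simp only [MulEquiv.symm_apply_apply] at hΦ
    exact ⟨(iso n).symm Φ, hΦ⟩
  · have hq' := qm_iff hq
    have h1 := Pool.Agent.Y453.HB.homogeneous hn κ (fun φ => c ((iso n).symm φ))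
      (fun φ ψ => hq'.conj φ ψ) (fun _ _ h => hq'.comm h)
      (fun s hs hs1 φ φ' h => hc s hs hs1 _ _ (iso_dilate.1 (by
        rw [MulEquiv.apply_symm_apply, MulEquiv.apply_symm_apply]
        exact h))) (iso n φ)
    simp only [MulEquiv.symm_apply_apply] at h1
    exact h1

end Pool.Agent.Results.MP_68f289_gt.HomogeneousQuasimorphisms
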